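import Pool.Agent.N911.TT
import Pool.Agent.N911.K3

/-! Soundness of the stages. -/

set_option maxRecDepth 100000

namespace Pool.Agent.N911

open H419R2 Finset

/-- the modulus of the whole search -/
def M0 : ℤ := 4 * 3 * 5 * 7 * 13 * 19 * 37 * 73

/-- all that is used about the integers -/
structure Sys (z : Dat) : Prop where
  con : Con z
  hP : M0 ∣ z.P * z.Pi - 1
  hR : M0 ∣ z.R * z.Ri - 1
  tod : z.t % 2 = 1
  Pod : z.P % 2 = 1
  nsq : ∀ l : ℕ, l ∈ [3, 5, 7, 13, 19, 37, 73] → ¬ IsSquare ((z.t ^ 2 + 4 * z.P : ℤ) : ZMod l)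
  r148_7 : NRel c148_7 z
  r148_19 : NRel c148_19 z
  r259_0 : NRel c259_19_0 z
  r259_1 : NRel c259_19_1 z
  r259_2 : NRel c259_19_2 z
  r133_37 : NRel c133_37 z
  r111_0 : NRel c111_19_0 z
  r111_1 : NRel c111_19_1 z
  r228 : NRel c228_7 z
  r140 : NRel c140_13 z
  r95 : NRel c95_13 z
  r105 : NRel c105_13 z
  r185 : NRel c185_13 z
  r133_13 : NRel c133_13 z
  r91 : NRel c91_37 z
  r133_73 : NRel c133_73 z
  r247_0 : NRel c247_73_0 z
  r247_1 : NRel c247_73_1 z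
  r259_73 : NRel c259_73 z

/-- seven times the residue of `P` -/
abbrev pP (z : Dat) (l : ℕ) : ℕ := 7 * res z.P l
/-- seven times the residue of `R` -/
abbrev pR (z : Dat) (l : ℕ) : ℕ := 7 * res z.R l
/-- first index -/
abbrev p0 (z : Dat) (l : ℕ) : ℕ := pk l z.t z.P
/-- second index -/
abbrev p1 (z : Dat) (l : ℕ) : ℕ := pk l (z.B1 * z.Pi) (z.R * z.Pi)
/-- third index -/
abbrev p2 (z : Dat) (l : ℕ) : ℕ := pk l (z.B2 * z.Ri) 1

theorem Sys.one_of {z : Dat} {x : ℤ} (h : M0 ∣ x - 1) {l : ℕ} (hl : (l : ℤ) ∣ M0) :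
    ((x : ℤ) : ZMod l) = 1 := by
  have : ((x - 1 : ℤ) : ZMod l) = 0 := (ZMod.intCast_zmod_eq_zero_iff_dvd _ _).mpr (hl.trans h)
  push_cast at this
  linear_combination this

theorem lok {z : Dat} (H : Sys z) {l I : ℕ} (l1 : 1 < l) (hI : chkI l I = true)
    (hl : (l : ℤ) ∣ M0) : LOK z l I :=
  ⟨l1, hI, Sys.one_of (z := z) H.hP hl, Sys.one_of (z := z) H.hR hl⟩

theorem disc1 (z : Dat) : z.B1 ^ 2 + 4 * z.P * z.R = z.t ^ 2 + 4 * z.P := by
  unfold Dat.B1 Dat.R; ring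

theorem disc2 {z : Dat} (h : Con z) : z.B2 ^ 2 + 4 * z.R ^ 2 = z.t ^ 2 + 4 * z.P := by
  have h1 := disc1 z
  unfold Con at h
  unfold Dat.B2
  linear_combination h1 - 4 * z.R * h

theorem sq_of {l : ℕ} {x y y' : ZMod l} (h : y' * y = 1) (h2 : IsSquare (y ^ 2 * x)) :
    IsSquare x := by
  obtain ⟨r, hr⟩ := h2
  refine ⟨y' * r, ?_⟩
  linear_combination y' ^ 2 * hr - (y' * y + 1) * x * h

theorem Sys.v0 {z : Dat} (H : Sys z) {l : ℕ} (h : l ∈ [3, 5, 7, 13, 19, 37, 73]) : V l z.t z.P := by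
  unfold V
  rw [if_neg (by rintro rfl; simp at h)]
  exact H.nsq l h

theorem mem_dvd {l : ℕ} (h : l ∈ [3, 5, 7, 13, 19, 37, 73]) : (l : ℤ) ∣ M0 := by
  unfold M0
  simp only [List.mem_cons, List.not_mem_nil, or_false] at h
  rcases h with rfl | rfl | rfl | rfl | rfl | rfl | rfl <;> norm_num

theorem Sys.v1 {z : Dat} (H : Sys z) {l : ℕ} (h : l ∈ [3, 5, 7, 13, 19, 37, 73]) :
    V l (z.B1 * z.Pi) (z.R * z.Pi) := by
  unfold V
  rw [if_neg (by rintro rfl; simp at h)]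
  intro hs
  apply H.nsq l h
  have e := Sys.one_of (z := z) H.hP (mem_dvd h)
  push_cast at e
  apply sq_of (y := (z.Pi : ZMod l)) (y' := (z.P : ZMod l)) e
  have d : ((z.B1 ^ 2 + 4 * z.P * z.R : ℤ) : ZMod l) = ((z.t ^ 2 + 4 * z.P : ℤ) : ZMod l) := by
    rw [disc1]
  rw [← d]
  convert hs using 1
  push_cast
  linear_combination 4 * (z.R : ZMod l) * z.Pi * e

theorem Sys.v2 {z : Dat} (H : Sys z) {l : ℕ} (h : l ∈ [3, 5, 7, 13, 19, 37, 73]) :
    V l (z.B2 * z.Ri) 1 := by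
  unfold V
  rw [if_neg (by rintro rfl; simp at h)]
  intro hs
  apply H.nsq l h
  have e := Sys.one_of (z := z) H.hR (mem_dvd h)
  push_cast at e
  apply sq_of (y := (z.Ri : ZMod l)) (y' := (z.R : ZMod l)) e
  have d : ((z.B2 ^ 2 + 4 * z.R ^ 2 : ℤ) : ZMod l) = ((z.t ^ 2 + 4 * z.P : ℤ) : ZMod l) := by
    rw [disc2 H.con]
  rw [← d]
  convert hs using 1
  push_cast
  linear_combination 4 * ((z.R : ZMod l) * z.Ri + 1) * e

theorem odd_R {z : Dat} (H : Sys z) : z.R % 2 = 1 := by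
  have h1 := H.tod
  have h2 := H.Pod
  unfold Dat.R
  obtain ⟨t', ht⟩ : ∃ k, z.t = 2 * k + 1 := ⟨z.t / 2, by omega⟩
  obtain ⟨P', hP⟩ : ∃ k, z.P = 2 * k + 1 := ⟨z.P / 2, by omega⟩
  rw [ht, hP]
  have h3 : (z.a * (z.a - 1)) % 2 = 0 := by
    rcases Int.emod_two_eq_zero_or_one z.a with h | h
    · rw [Int.mul_emod, h, zero_mul]; rfl
    · rw [Int.mul_emod, show (z.a - 1) % 2 = 0 by omega, mul_zero]; rfl
  have e : 1 + z.a * (2 * t' + 1) - z.a ^ 2 * (2 * P' + 1) =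
      1 - z.a * (z.a - 1) + 2 * (z.a * t' - z.a ^ 2 * P') := by ring
  rw [e]
  omega

theorem odd_B1 {z : Dat} (H : Sys z) : z.B1 % 2 = 1 := by
  have h1 := H.tod
  unfold Dat.B1
  have e : 2 * z.a * z.P - z.t = 2 * (z.a * z.P) - z.t := by ring
  rw [e]; omega

theorem odd_B2 {z : Dat} (H : Sys z) : z.B2 % 2 = 1 := by
  have h1 := odd_B1 H
  unfold Dat.B2
  have e : 2 * z.b * z.R - z.B1 = 2 * (z.b * z.R) - z.B1 := by ring
  rw [e]; omega

theorem odd_mul {x y : ℤ} (hx : x % 2 = 1) (hy : y % 2 = 1) : (x * y) % 2 = 1 := by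
  rw [Int.mul_emod, hx, hy]; rfl

theorem odd_inv {x y : ℤ} (h : M0 ∣ x * y - 1) : y % 2 = 1 := by
  have h1 : (2 : ℤ) ∣ x * y - 1 := (show (2 : ℤ) ∣ M0 by unfold M0; norm_num).trans h
  rcases Int.emod_two_eq_zero_or_one y with h2 | h2
  · exfalso
    have : (x * y) % 2 = 0 := by rw [Int.mul_emod, h2, mul_zero]; rfl
    omega
  · exact h2

theorem Sys.w0 {z : Dat} (H : Sys z) : V 4 z.t z.P := by
  unfold V; rw [if_pos rfl]; exact ⟨H.tod, H.Pod⟩

theorem Sys.w1 {z : Dat} (H : Sys z) : V 4 (z.B1 * z.Pi) (z.R * z.Pi) := by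
  unfold V; rw [if_pos rfl]
  exact ⟨odd_mul (odd_B1 H) (odd_inv H.hP), odd_mul (odd_R H) (odd_inv H.hP)⟩

theorem Sys.w2 {z : Dat} (H : Sys z) : V 4 (z.B2 * z.Ri) 1 := by
  unfold V; rw [if_pos rfl]
  exact ⟨odd_mul (odd_B2 H) (odd_inv H.hR), rfl⟩

theorem S73_sound {z : Dat} (H : Sys z)
    (h : S73 (pP z 7) (p0 z 7) (p1 z 7) (p2 z 7) (pP z 13) (p0 z 13) (p1 z 13) (p2 z 13)
      (pP z 19) (p0 z 19) (p1 z 19) (p2 z 19) (pP z 37) (p0 z 37) (p1 z 37) (p2 z 37)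
      (pR z 7) (pR z 13) (pR z 19) (pR z 37) c133_73 c247_73_0 c247_73_1 c259_73 = true) :
    False := by
  unfold S73 at h
  have i133 : idem 7 57 19 77 c133_73.q = true := by decide
  have i247 : idem 13 209 19 39 c247_73_0.q = true := by decide
  have i247' : idem 13 209 19 39 c247_73_1.q = true := by decide
  have i259 : idem 7 148 37 112 c259_73.q = true := by decide
  obtain ⟨K, T, A, B, L1, h⟩ := cof_sound H.r133_73
    (evD_sound c133_73_ok (by norm_num) (by norm_num) i133 _ _)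
    (evD_sound c133_73_ok (by norm_num) (by norm_num) i133 _ _)
    (evD_sound c133_73_ok (by norm_num) (by norm_num) i133 _ _)
    (chD_sound (by norm_num) (by norm_num) i133 _)
    (chD_sound (by norm_num) (by norm_num) i133 _) h
  obtain ⟨K', T', A', B', L2, h⟩ := cof_sound H.r247_0
    (evD_sound c247_73_0_ok (by norm_num) (by norm_num) i247 _ _)
    (evD_sound c247_73_0_ok (by norm_num) (by norm_num) i247 _ _)
    (evD_sound c247_73_0_ok (by norm_num) (by norm_num) i247 _ _)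
    (chD_sound (by norm_num) (by norm_num) i247 _)
    (chD_sound (by norm_num) (by norm_num) i247 _) h
  obtain ⟨K2, T2, A2, B2, L3, h⟩ := cof_sound H.r247_1
    (evD_sound c247_73_1_ok (by norm_num) (by norm_num) i247' _ _)
    (evD_sound c247_73_1_ok (by norm_num) (by norm_num) i247' _ _)
    (evD_sound c247_73_1_ok (by norm_num) (by norm_num) i247' _ _)
    (chD_sound (by norm_num) (by norm_num) i247' _)
    (chD_sound (by norm_num) (by norm_num) i247' _) h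
  obtain ⟨K3, T3, A3, B3, L4, h⟩ := cof_sound H.r259_73
    (evD_sound c259_73_ok (by norm_num) (by norm_num) i259 _ _)
    (evD_sound c259_73_ok (by norm_num) (by norm_num) i259 _ _)
    (evD_sound c259_73_ok (by norm_num) (by norm_num) i259 _ _)
    (chD_sound (by norm_num) (by norm_num) i259 _)
    (chD_sound (by norm_num) (by norm_num) i259 _) h
  have h1 := enL_sound (lok H (by norm_num) ci73 (mem_dvd (by simp))) (by norm_num)
    (H.v0 (by simp)) iq73 H.con L1 L2 h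
  unfold At at h1
  have ca := res_cast' z.a (show 0 < 73 by norm_num)
  have cb := res_cast' z.b (show 0 < 73 by norm_num)
  have ct := res_cast' z.t (show 0 < 73 by norm_num)
  have h2 := imp_true h1 (ckL_sound L3 ca cb ct)
  have h3 := imp_true h2 (ckL_sound L4 ca cb ct)
  exact absurd h3 (by simp)

theorem S13_sound {z : Dat} (H : Sys z) {next : Leaf}
    (h : S13 (res z.a 37) (res z.b 37) (res z.t 37) (pP z 37) (pR z 37) (p0 z 37) (p1 z 37)
      (p2 z 37) (pP z 7) (pR z 7) (p0 z 7) (p1 z 7) (p2 z 7)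
      (pP z 19) (pR z 19) (p0 z 19) (p1 z 19) (p2 z 19)
      (pP z 3) (pR z 3) (p0 z 3) (p1 z 3) (p2 z 3)
      (pP z 5) (pR z 5) (p0 z 5) (p1 z 5) (p2 z 5) next = true) : At z 13 next := by
  have m3 : (3 : ℕ) ∈ [3, 5, 7, 13, 19, 37, 73] := by simp
  have m5 : (5 : ℕ) ∈ [3, 5, 7, 13, 19, 37, 73] := by simp
  have m7 : (7 : ℕ) ∈ [3, 5, 7, 13, 19, 37, 73] := by simp
  have m13 : (13 : ℕ) ∈ [3, 5, 7, 13, 19, 37, 73] := by simp
  have m19 : (19 : ℕ) ∈ [3, 5, 7, 13, 19, 37, 73] := by simp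
  have m37 : (37 : ℕ) ∈ [3, 5, 7, 13, 19, 37, 73] := by simp
  unfold S13 at h
  obtain ⟨K, T, A, B, L1, h⟩ := cof_sound H.r95
    (tab_95 (H.v0 m19) (H.v0 m5)) (tab_95 (H.v1 m19) (H.v1 m5)) (tab_95 (H.v2 m19) (H.v2 m5))
    (chv_95 z.P) (chv_95 z.R) h
  obtain ⟨K', T', A', B', L2, h⟩ := cof_sound H.r105
    (tab_105 (H.v0 m7) (H.v0 m3) (H.v0 m5)) (tab_105 (H.v1 m7) (H.v1 m3) (H.v1 m5))
    (tab_105 (H.v2 m7) (H.v2 m3) (H.v2 m5)) (chv_105 z.P) (chv_105 z.R) h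
  obtain ⟨K2, T2, A2, B2, L3, h⟩ := cof_sound H.r185
    (tab_185 (H.v0 m37) (H.v0 m5)) (tab_185 (H.v1 m37) (H.v1 m5)) (tab_185 (H.v2 m37) (H.v2 m5))
    (chv_185 z.P) (chv_185 z.R) h
  obtain ⟨K3, T3, A3, B3, L4, h⟩ := cof_sound H.r133_13
    (tab_133_13 (H.v0 m7) (H.v0 m19)) (tab_133_13 (H.v1 m7) (H.v1 m19))
    (tab_133_13 (H.v2 m7) (H.v2 m19)) (chv_133_13 z.P) (chv_133_13 z.R) h
  simp only [force_eq] at h
  have h1 := enL_sound (lok H (by norm_num) ci13 (mem_dvd m13)) (by norm_num)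
    (H.v0 m13) iq13 H.con L1 L2 h
  unfold At at h1 ⊢
  have ca := res_cast' z.a (show 0 < 13 by norm_num)
  have cb := res_cast' z.b (show 0 < 13 by norm_num)
  have ct := res_cast' z.t (show 0 < 13 by norm_num)
  have h2 := imp_true h1 (ckL_sound L3 ca cb ct)
  have h3 := imp_true h2 (ckL_sound L4 ca cb ct)
  have ca' := res_cast' z.a (show 0 < 37 by norm_num)
  have cb' := res_cast' z.b (show 0 < 37 by norm_num)
  have ct' := res_cast' z.t (show 0 < 37 by norm_num)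
  exact imp_true h3 (ckF_sound H.r91 rfl
    (tab_91 (H.v0 m7) (H.v0 m13)) (tab_91 (H.v1 m7) (H.v1 m13)) (tab_91 (H.v2 m7) (H.v2 m13))
    (chv_91 z.P) (chv_91 z.R) ca' cb' ct')

/-- lists -/
theorem cl3 : chkLL 3 I3 Q3 L3 = true := by decide +kernel
theorem cl5 : chkLL 5 I5 Q5 L5 = true := by decide +kernel
theorem cl7 : chkLL 7 I7 Q7 L7 = true := by decide +kernel
theorem cl4k : chkL4 I4 L4 = true := by decide +kernel
theorem cr19 : chkRows 19 I19 Q19 rows19 = true := by decide +kernel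

theorem S5_sound {z : Dat} (H : Sys z) {next : Leaf}
    (h : S5 (pP z 7) (pR z 7) (p0 z 7) (p1 z 7) (p2 z 7)
      (pP z 4) (pR z 4) (p0 z 4) (p1 z 4) (p2 z 4) next = true) : At z 5 next := by
  have m5 : (5 : ℕ) ∈ [3, 5, 7, 13, 19, 37, 73] := by simp
  have m7 : (7 : ℕ) ∈ [3, 5, 7, 13, 19, 37, 73] := by simp
  unfold S5 at h
  simp only [force_eq] at h
  have h1 := LL_sound (lok H (by norm_num) ci5 (mem_dvd m5)) (by norm_num)
    (H.v0 m5) iq5 H.con cl5 h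
  unfold At at h1 ⊢
  exact imp_true h1 (ckV_sound H.r140 rfl
    (tab_140 (H.v0 m7) H.w0 (H.v0 m5)) (tab_140 (H.v1 m7) H.w1 (H.v1 m5))
    (tab_140 (H.v2 m7) H.w2 (H.v2 m5)) (chv_140 z.P) (chv_140 z.R))

theorem S3_sound {z : Dat} (H : Sys z) {next : ℕ → ℕ → ℕ → ℕ → ℕ → Leaf}
    (h : S3 (sl 4 X148_7 (pP z 37)) (sl 4 X148_7 (pR z 37)) (sl 16 E148_7 (p0 z 37))
      (sl 16 E148_7 (p1 z 37)) (sl 16 E148_7 (p2 z 37))
      (sl 4 X148_19 (pP z 37)) (sl 4 X148_19 (pR z 37)) (sl 16 E148_19 (p0 z 37))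
      (sl 16 E148_19 (p1 z 37)) (sl 16 E148_19 (p2 z 37))
      (sl 3 X111_0 (pP z 37)) (sl 3 X111_0 (pR z 37)) (sl 18 E111_0 (p0 z 37))
      (sl 18 E111_0 (p1 z 37)) (sl 18 E111_0 (p2 z 37))
      (sl 3 X111_1 (pP z 37)) (sl 3 X111_1 (pR z 37)) (sl 18 E111_1 (p0 z 37))
      (sl 18 E111_1 (p1 z 37)) (sl 18 E111_1 (p2 z 37))
      (res z.a 19) (res z.b 19) (res z.t 19) (pP z 19) (pR z 19) (p0 z 19) (p1 z 19) (p2 z 19)
      next = true) :
    At z 4 (next (pP z 3) (pR z 3) (p0 z 3) (p1 z 3) (p2 z 3)) := by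
  have m3 : (3 : ℕ) ∈ [3, 5, 7, 13, 19, 37, 73] := by simp
  have m19 : (19 : ℕ) ∈ [3, 5, 7, 13, 19, 37, 73] := by simp
  have m37 : (37 : ℕ) ∈ [3, 5, 7, 13, 19, 37, 73] := by simp
  unfold S3 at h
  simp only [force_eq] at h
  have h1 := LL_sound (lok H (by norm_num) ci3 (mem_dvd m3)) (by norm_num)
    (H.v0 m3) iq3 H.con cl3 h
  unfold At at h1
  have ca := res_cast' z.a (show 0 < 19 by norm_num)
  have cb := res_cast' z.b (show 0 < 19 by norm_num)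
  have ct := res_cast' z.t (show 0 < 19 by norm_num)
  have h2 := imp_true h1 (ckF_sound H.r111_0 rfl
    (tab_111_0 (H.v0 m37) (H.v0 m3)) (tab_111_0 (H.v1 m37) (H.v1 m3))
    (tab_111_0 (H.v2 m37) (H.v2 m3)) (chv_111_0 z.P) (chv_111_0 z.R) ca cb ct)
  have h3 := imp_true h2 (ckF_sound H.r111_1 rfl
    (tab_111_1 (H.v0 m37) (H.v0 m3)) (tab_111_1 (H.v1 m37) (H.v1 m3))
    (tab_111_1 (H.v2 m37) (H.v2 m3)) (chv_111_1 z.P) (chv_111_1 z.R) ca cb ct)
  have h4 := L4_sound (lok H (by norm_num) ci4 (by unfold M0; norm_num)) H.w0 H.con cl4k h3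
  unfold At at h4 ⊢
  have h5 := imp_true h4 (ckV_sound H.r148_7 rfl
    (tab_148_7 (H.v0 m37) H.w0) (tab_148_7 (H.v1 m37) H.w1) (tab_148_7 (H.v2 m37) H.w2)
    (chv_148_7 z.P) (chv_148_7 z.R))
  have h6 := imp_true h5 (ckV_sound H.r148_19 rfl
    (tab_148_19 (H.v0 m37) H.w0) (tab_148_19 (H.v1 m37) H.w1) (tab_148_19 (H.v2 m37) H.w2)
    (chv_148_19 z.P) (chv_148_19 z.R))
  exact imp_true h6 (ckV_sound H.r228 rfl
    (tab_228 (H.v0 m19) (H.v0 m3) H.w0) (tab_228 (H.v1 m19) (H.v1 m3) H.w1)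
    (tab_228 (H.v2 m19) (H.v2 m3) H.w2) (chv_228 z.P) (chv_228 z.R))

theorem S19_sound {z : Dat} (H : Sys z) {next : Leaf}
    (h : S19 (res z.a 37) (res z.b 37) (res z.t 37)
      (sl 7 X259_0 (pP z 37)) (sl 7 X259_0 (pR z 37)) (sl 98 E259_0 (p0 z 37))
      (sl 98 E259_0 (p1 z 37)) (sl 98 E259_0 (p2 z 37))
      (sl 7 X259_1 (pP z 37)) (sl 7 X259_1 (pR z 37)) (sl 98 E259_1 (p0 z 37))
      (sl 98 E259_1 (p1 z 37)) (sl 98 E259_1 (p2 z 37))
      (pP z 7) (pR z 7) (p0 z 7) (p1 z 7) (p2 z 7) next = true) : At z 19 next := by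
  have m7 : (7 : ℕ) ∈ [3, 5, 7, 13, 19, 37, 73] := by simp
  have m19 : (19 : ℕ) ∈ [3, 5, 7, 13, 19, 37, 73] := by simp
  have m37 : (37 : ℕ) ∈ [3, 5, 7, 13, 19, 37, 73] := by simp
  unfold S19 at h
  obtain ⟨K, T, A, B, L1, h⟩ := cof_sound H.r259_0
    (tab_259_0 (H.v0 m37) (H.v0 m7)) (tab_259_0 (H.v1 m37) (H.v1 m7))
    (tab_259_0 (H.v2 m37) (H.v2 m7)) (chv_259_0 z.P) (chv_259_0 z.R) h
  obtain ⟨K', T', A', B', L2, h⟩ := cof_sound H.r259_1
    (tab_259_1 (H.v0 m37) (H.v0 m7)) (tab_259_1 (H.v1 m37) (H.v1 m7))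
    (tab_259_1 (H.v2 m37) (H.v2 m7)) (chv_259_1 z.P) (chv_259_1 z.R) h
  simp only [force_eq] at h
  have h1 := enT_sound (lok H (by norm_num) ci19 (mem_dvd m19)) (by norm_num)
    (H.v0 m19) iq19 H.con (by norm_num) cr19 L1 L2 h
  unfold At at h1 ⊢
  have ca' := res_cast' z.a (show 0 < 37 by norm_num)
  have cb' := res_cast' z.b (show 0 < 37 by norm_num)
  have ct' := res_cast' z.t (show 0 < 37 by norm_num)
  exact imp_true h1 (ckF_sound H.r133_37 rfl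
    (tab_133_37 (H.v0 m7) (H.v0 m19)) (tab_133_37 (H.v1 m7) (H.v1 m19))
    (tab_133_37 (H.v2 m7) (H.v2 m19)) (chv_133_37 z.P) (chv_133_37 z.R) ca' cb' ct')

theorem S37_sound {z : Dat} (H : Sys z)
    (h : S37 c133_73 c247_73_0 c247_73_1 c259_73 (res z.a 37) (res z.b 37) (res z.t 37)
      (pP z 37) (pR z 37) (p0 z 37) (p1 z 37) (p2 z 37) = true) : False := by
  have m7 : (7 : ℕ) ∈ [3, 5, 7, 13, 19, 37, 73] := by simp
  have m37 : (37 : ℕ) ∈ [3, 5, 7, 13, 19, 37, 73] := by simp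
  unfold S37 at h
  simp only [force_eq] at h
  generalize hb : L4.all (fun _ _ _ P4 R4 i4 j4 k4 =>
      imp (ckV 7 (sl 4 X148_7 (pP z 37)) (sl 4 X148_7 (pR z 37)) (sl 16 E148_7 (p0 z 37))
      (sl 16 E148_7 (p1 z 37)) (sl 16 E148_7 (p2 z 37)) P4 R4 i4 j4 k4)
        (imp (ckV 19 (sl 4 X148_19 (pP z 37)) (sl 4 X148_19 (pR z 37)) (sl 16 E148_19 (p0 z 37))
      (sl 16 E148_19 (p1 z 37)) (sl 16 E148_19 (p2 z 37)) P4 R4 i4 j4 k4) false)) = bb at h
  cases bb with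
  | true =>
    have h4 := L4_sound (lok H (by norm_num) ci4 (by unfold M0; norm_num)) H.w0 H.con cl4k hb
    unfold At at h4
    have h5 := imp_true h4 (ckV_sound H.r148_7 rfl
      (tab_148_7 (H.v0 m37) H.w0) (tab_148_7 (H.v1 m37) H.w1) (tab_148_7 (H.v2 m37) H.w2)
      (chv_148_7 z.P) (chv_148_7 z.R))
    have h6 := imp_true h5 (ckV_sound H.r148_19 rfl
      (tab_148_19 (H.v0 m37) H.w0) (tab_148_19 (H.v1 m37) H.w1) (tab_148_19 (H.v2 m37) H.w2)
      (chv_148_19 z.P) (chv_148_19 z.R))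
    exact absurd h6 (by simp)
  | false =>
    have h1 := LL_sound (lok H (by norm_num) ci7 (mem_dvd m7)) (by norm_num)
      (H.v0 m7) iq7 H.con cl7 h
    unfold At at h1
    have h2 := imp_true h1 (ckV_sound H.r259_2 rfl
      (tab_259_2 (H.v0 m37) (H.v0 m7)) (tab_259_2 (H.v1 m37) (H.v1 m7))
      (tab_259_2 (H.v2 m37) (H.v2 m7)) (chv_259_2 z.P) (chv_259_2 z.R))
    have h3 := S19_sound H h2
    unfold At at h3
    have h4 := S3_sound H h3
    unfold At at h4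
    have h5 := S5_sound H h4
    unfold At at h5
    have h6 := S13_sound H h5
    unfold At at h6
    exact S73_sound H h6

theorem run_sound {z : Dat} (H : Sys z) (ht : res z.t 37 < 19)
    (h : run c133_73 c247_73_0 c247_73_1 c259_73 (res z.a 37) = true) : False := by
  have m37 : (37 : ℕ) ∈ [3, 5, 7, 13, 19, 37, 73] := by simp
  unfold run at h
  have h1 := enF_sound (lok H (by norm_num) ci37 (mem_dvd m37)) (by norm_num)
    (H.v0 m37) iq37 H.con ht h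
  unfold At at h1
  exact S37_sound H h1

end Pool.Agent.N911
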